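import Pool.Agent.H86.LE.NoD

/-!
# LE Away: the sections stay away from `D₁`, and there are none

`away`: by compactness, with `no_limit`.  `sg_empty`: `G 0 (F z)` is an entire function without zeros, so it is `exp (m h)`; `exp (-h) F` is bounded outside of
the discs about the points of `B`, hence bounded (maximum principle), hence constant (Liouville).
-/

set_option autoImplicit false

open Topology Filter Metric

namespace Pool.Agent.H86.LE

open Pool.Agent.H36.BP (EN fs wd)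
open Pool.Agent.H14.PP (IsCone)
open Pool.Agent.H62.EF (Lat MN pr TorusMap Sec)
open Pool.Agent.H62.EL (BadSet Gd isClosed_gd gd_notMem gd_mono)

variable {N : ℕ} {X : Set (EN N)} {Λ : AddSubgroup ℂ} {u : EN N → ℂ} {B : Set ℂ} {δ : ℝ} {G : Fin 2 → EN N → ℂ} {m : Fin 2 → ℕ}

theorem away (E : LData X Λ u B δ G m) {δ' : ℝ} (hδ' : 0 < δ') :
    ∃ c : ℝ, 0 < c ∧ ∀ F ∈ SG X Λ u G, ∀ z ∈ Gd B δ', c * ‖F z‖ ^ m 0 ≤ ‖G 0 (F z)‖ := by
  by_contra hcon
  push Not at hcon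
  obtain ⟨R, hR0, hR⟩ := E.lat.cocompact
  have hbig : ∀ n : ℕ, ∃ F ∈ SG X Λ u G, ∃ z ∈ Gd B δ', ‖z‖ ≤ R ∧ ‖G 0 (F z)‖ < 1 / ((n : ℝ) + 1) * ‖F z‖ ^ m 0 := by
    intro n
    obtain ⟨F, hF, z, hz, hb⟩ := hcon (1 / ((n : ℝ) + 1)) (by positivity)
    obtain ⟨l, hl, hlR⟩ := hR z
    refine ⟨fun ζ => F (ζ + l), sg_trans hF hl, z - l, ?_, hlR, ?_⟩
    · rw [← BadSet.gd_add E.bad δ' hl, sub_add_cancel]
      exact hz
    · show ‖G 0 (F (z - l + l))‖ < 1 / ((n : ℝ) + 1) * ‖F (z - l + l)‖ ^ m 0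
      rw [sub_add_cancel]
      exact hb
  choose F hF zc hzG hzR hzc using hbig
  set 𝒰 : Ultrafilter ℕ := hyperfilter ℕ with h𝒰
  have hle : (𝒰 : Filter ℕ) ≤ atTop := Nat.hyperfilter_le_atTop
  obtain ⟨w₀, -, hw₀⟩ := (isCompact_closedBall (0 : ℂ) R).ultrafilter_le_nhds (𝒰.map zc) (by
    rw [Filter.le_principal_iff, Ultrafilter.coe_map, Filter.mem_map]
    exact Filter.univ_mem' fun n => mem_closedBall_zero_iff.2 (hzR n))
  have hwt : Tendsto zc 𝒰 (𝓝 w₀) := hw₀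
  have hw₀G : w₀ ∈ Gd B δ' := (isClosed_gd (B := B) δ').mem_of_tendsto hwt (Eventually.of_forall hzG)
  have hw₀B := gd_notMem hδ' hw₀G
  obtain ⟨x, hxX, hx⟩ := exists_limit E 𝒰 hF
  have hin : G 0 (x w₀) = 0 := by
    obtain ⟨r, φ, Ψ, h⟩ := hx w₀ hw₀B
    have hself : w₀ ∈ ball w₀ r := mem_ball_self h.pos
    have h1 : Tendsto (fun n => φ n (zc n)) 𝒰 (𝓝 (Ψ w₀)) :=
      h.conv.tendsto_comp (h.dif.continuousOn w₀ hself) hself
        (tendsto_nhdsWithin_iff.2 ⟨hwt, hwt.eventually (isOpen_ball.mem_nhds hself)⟩)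
    have h2 : Tendsto (fun n => ‖G 0 (φ n (zc n))‖) 𝒰 (𝓝 ‖G 0 (Ψ w₀)‖) := (((E.dif 0).continuous.tendsto _).comp h1).norm
    have h3 : Tendsto (fun n : ℕ => 1 / ((n : ℝ) + 1) * ‖φ n (zc n)‖ ^ m 0) 𝒰 (𝓝 (0 * ‖Ψ w₀‖ ^ m 0)) :=
      (tendsto_one_div_add_atTop_nhds_zero_nat.mono_left hle).mul (h1.norm.pow (m 0))
    have h4 : ‖G 0 (Ψ w₀)‖ ≤ 0 * ‖Ψ w₀‖ ^ m 0 := by
      refine le_of_tendsto_of_tendsto h2 h3 ?_
      filter_upwards [h.app, hwt.eventually (isOpen_ball.mem_nhds hself)] with n hn hn2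
      obtain ⟨c, hc, hcn⟩ := hn.2 _ hn2
      rw [hcn, E.hom, norm_mul, norm_pow, norm_smul, mul_pow]
      have h5 := mul_le_mul_of_nonneg_left (hzc n).le (by positivity : 0 ≤ ‖c‖ ^ m 0)
      linarith
    rw [zero_mul] at h4
    have h5 : G 0 (Ψ w₀) = 0 := norm_le_zero_iff.1 h4
    obtain ⟨-, -, c, hc, hcx⟩ := h.mem w₀ hself
    rw [hcx, E.hom] at h5
    exact (mul_eq_zero.1 h5).resolve_left (pow_ne_zero _ hc)
  rcases limit_dichotomy E 𝒰 hF hx with h | h
  · refine no_limit E (x := x) (fun z₀ hz₀ => ?_) h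
    obtain ⟨r, φ, Ψ, h1⟩ := hx z₀ hz₀
    exact ⟨r, Ψ, h1.pos, h1.dif, h1.mem⟩
  · exact h w₀ hw₀B hin

/-- a nowhere vanishing entire function is an exponential -/
theorem exists_log {g : ℂ → ℂ} (hg : Differentiable ℂ g) (h0 : ∀ z, g z ≠ 0) : ∃ h : ℂ → ℂ, Differentiable ℂ h ∧ ∀ z, g z = Complex.exp (h z) := by
  have hq : Differentiable ℂ fun z => deriv g z / g z := by
    intro z
    exact ((hg.deriv z).div (hg z) (h0 z))
  obtain ⟨L, hL⟩ := hq.isExactOn_univ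
  have hL' : ∀ z, HasDerivAt L (deriv g z / g z) z := fun z => hL z trivial
  have hconst : ∀ z, HasDerivAt (fun z => g z * Complex.exp (-L z)) 0 z := by
    intro z
    have h1 := (hg z).hasDerivAt.mul ((hL' z).neg.cexp)
    have h2 : deriv g z * Complex.exp (-L z) + g z * (Complex.exp (-L z) * -(deriv g z / g z)) = 0 := by
      have h3 := h0 z
      field_simp
      ring
    have h4 : HasDerivAt (fun z => g z * Complex.exp (-L z))
        (deriv g z * Complex.exp (-L z) + g z * (Complex.exp (-L z) * -(deriv g z / g z))) z := h1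
    rw [h2] at h4
    exact h4
  have hc : ∀ z, g z * Complex.exp (-L z) = g 0 * Complex.exp (-L 0) := by
    intro z
    exact is_const_of_deriv_eq_zero (fun z => (hconst z).differentiableAt) (fun z => (hconst z).deriv) z 0
  obtain ⟨a, ha⟩ : ∃ a, Complex.exp a = g 0 * Complex.exp (-L 0) :=
    ⟨Complex.log (g 0 * Complex.exp (-L 0)), Complex.exp_log (mul_ne_zero (h0 0) (Complex.exp_ne_zero _))⟩
  refine ⟨fun z => a + L z, fun z => (hL' z).differentiableAt.const_add a, fun z => ?_⟩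
  rw [Complex.exp_add, ha, ← hc z, mul_assoc, ← Complex.exp_add, neg_add_cancel, Complex.exp_zero, mul_one]

/-- **There are no sections which avoid `D₁ ∪ D₂`.** -/
theorem sg_empty (E : LData X Λ u B δ G m) : SG X Λ u G = ∅ := by
  rw [Set.eq_empty_iff_forall_notMem]
  intro F hF
  have hδ := E.bad.pos
  obtain ⟨c, hc, haw⟩ := away E hδ
  obtain ⟨h, hh, hGh⟩ := exists_log ((E.dif 0).comp hF.1.1) (fun z => hF.2 0 z)
  have hm : (m 0 : ℂ) ≠ 0 := by exact_mod_cast E.pos.ne'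
  set K : ℂ → EN N := fun z => Complex.exp (-(h z / m 0)) • F z with hK
  have hKd : Differentiable ℂ K := ((hh.div_const _).neg.cexp).smul hF.1.1
  have hGK : ∀ z, G 0 (K z) = 1 := by
    intro z
    have h1 : G 0 (F z) = Complex.exp (h z) := hGh z
    rw [hK]
    simp only
    rw [E.hom, h1, ← Complex.exp_nat_mul, ← Complex.exp_add]
    have h2 : (m 0 : ℂ) * -(h z / m 0) + h z = 0 := by
      field_simp
      ring
    rw [h2, Complex.exp_zero]
  have hbd1 : ∀ z ∈ Gd B δ, ‖K z‖ ≤ max 1 (1 / c) := by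
    intro z hz
    have h1 := haw F hF z hz
    have h2 : c * ‖K z‖ ^ m 0 ≤ 1 := by
      have h3 : ‖G 0 (K z)‖ = 1 := by rw [hGK z, norm_one]
      have h4 : G 0 (K z) = Complex.exp (-(h z / m 0)) ^ m 0 * G 0 (F z) := E.hom _ _ _
      rw [← h3, h4, norm_mul, norm_pow]
      have h5 : ‖K z‖ = ‖Complex.exp (-(h z / m 0))‖ * ‖F z‖ := norm_smul _ _
      rw [h5, mul_pow]
      have h6 := mul_le_mul_of_nonneg_left h1 (by positivity : 0 ≤ ‖Complex.exp (-(h z / m 0))‖ ^ m 0)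
      linarith
    by_contra hcon
    push Not at hcon
    have h7 : 1 < ‖K z‖ := lt_of_le_of_lt (le_max_left _ _) hcon
    have h8 : ‖K z‖ ≤ ‖K z‖ ^ m 0 := le_self_pow₀ h7.le E.pos.ne'
    have h9 : 1 / c < ‖K z‖ := lt_of_le_of_lt (le_max_right _ _) hcon
    rw [div_lt_iff₀ hc] at h9
    nlinarith
  have hbd : ∀ z, ‖K z‖ ≤ max 1 (1 / c) := by
    intro z
    by_cases hz : z ∈ Gd B δ
    · exact hbd1 z hz
    have h1 : ∃ b ∈ B, ‖z - b‖ < δ := by
      by_contra hcon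
      push Not at hcon
      exact hz hcon
    obtain ⟨b, hb, hbz⟩ := h1
    refine Complex.norm_le_of_forall_mem_frontier_norm_le (U := ball b δ) isBounded_ball hKd.diffContOnCl (fun w hw => ?_)
      (subset_closure (by rw [mem_ball, dist_eq_norm]; exact hbz))
    rw [frontier_ball b hδ.ne', mem_sphere, dist_eq_norm] at hw
    refine hbd1 w fun b' hb' => ?_
    by_cases hbb : b' = b
    · rw [hbb, hw]
    · have h2 := E.bad.sep b' hb' b hb hbb
      have h3 : b' - b = (w - b) - (w - b') := by ring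
      rw [h3] at h2
      have h4 := norm_sub_le (w - b) (w - b')
      linarith
  have hconst : ∀ z w, K z = K w := by
    refine fun z w => Differentiable.apply_eq_apply_of_bounded hKd ?_ z w
    rw [Metric.isBounded_iff_subset_closedBall 0]
    refine ⟨max 1 (1 / c), ?_⟩
    rintro _ ⟨z, rfl⟩
    rw [mem_closedBall_zero_iff]
    exact hbd z
  -- the contradiction
  obtain ⟨ε, hε, hdisc⟩ := E.lat.discrete
  have h1 : ∀ z, u (F z) - u (K z) ∈ Λ := by
    intro z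
    have h2 := E.tor.smul (F z) (hF.1.2.1 z) (Complex.exp (-(h z / m 0))) (Complex.exp_ne_zero _)
    have h3 := Λ.neg_mem h2
    rwa [neg_sub] at h3
  have h2 : ((ε / 2 : ℝ) : ℂ) ∈ Λ := by
    have h3 := h1 ((ε / 2 : ℝ) : ℂ)
    have h4 := h1 0
    rw [hconst _ 0] at h3
    have h5 := hF.1.2.2 ((ε / 2 : ℝ) : ℂ)
    have h6 := hF.1.2.2 0
    have h7 := Λ.add_mem (Λ.sub_mem h3 h4) (Λ.sub_mem h6 h5)
    convert h7 using 1
    ring
  have h3 := hdisc _ h2 (by
    rw [Complex.norm_real, Real.norm_of_nonneg (by positivity)]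
    linarith)
  have h4 : (ε / 2 : ℝ) = 0 := by exact_mod_cast h3
  linarith

end Pool.Agent.H86.LE
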