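import Pool.Agent.H86.LE.Away
import Pool.Agent.H17EF.Four

/-!
# LE Bridge: from the projective space to the cone
-/

set_option autoImplicit false

open Topology Filter MvPolynomial Metric

noncomputable section

namespace Pool.Agent.H86.LE

open Pool.Agent.H17 (PN VanishesAt HolomorphicInto ZariskiClosedIn)
open Pool.Agent.H62.FC (Homog)
open Pool.Agent.H62.EF (Lat Sec TorusMap)
open Pool.Agent.H62.EL (BadSet)
open Pool.Agent.H17BP (Surface)
open Pool.Agent.H13.SM (conTan cone)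
open Pool.Agent.H36.BP (EN isCone_transport)
open Pool.Agent.H17EF (projVar IsHolomorphicMap coneE uE sections exists_sec mk_mem_projVar mem_coneE uE_eq sub_mem_iff torusMap
  holomorphicInto_of_lift eval_smul_form)

variable {N : ℕ}

theorem coset_dist {Λ : AddSubgroup ℂ} (hΛ : Lat Λ) (c : ℂ) : ∃ ε : ℝ, 0 < ε ∧ ∀ l ∈ Λ, c + l ≠ 0 → ε ≤ ‖c + l‖ := by
  obtain ⟨δ, hδ, hd⟩ := hΛ.discrete
  by_cases h : ∃ l₀ ∈ Λ, c + l₀ ≠ 0 ∧ ‖c + l₀‖ < δ / 2
  · obtain ⟨l₀, hl₀, h0, h1⟩ := h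
    refine ⟨‖c + l₀‖, norm_pos_iff.2 h0, fun l hl hne => ?_⟩
    by_contra hcon
    push Not at hcon
    have h2 : l - l₀ = 0 := by
      refine hd _ (Λ.sub_mem hl hl₀) ?_
      have h3 : l - l₀ = (c + l) - (c + l₀) := by ring
      rw [h3]
      have h4 := norm_sub_le (c + l) (c + l₀)
      linarith
    rw [sub_eq_zero.1 h2] at hcon
    exact lt_irrefl _ hcon
  · push Not at h
    exact ⟨δ / 2, half_pos hδ, fun l hl hne => h l hl hne⟩

theorem badSet_of_finite {Λ : AddSubgroup ℂ} (hΛ : Lat Λ) {B : Set (ℂ ⧸ Λ)} (hB : B.Finite) :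
    ∃ δ : ℝ, BadSet {b : ℂ | (b : ℂ ⧸ Λ) ∈ B} Λ δ := by
  have h1 : ∀ᶠ ε in 𝓝[>] (0 : ℝ), ∀ p ∈ B ×ˢ B, ∀ b b' : ℂ, (b : ℂ ⧸ Λ) = p.1 → (b' : ℂ ⧸ Λ) = p.2 → b ≠ b' → 8 * ε ≤ ‖b - b'‖ := by
    refine (Filter.eventually_all_finite (hB.prod hB)).2 ?_
    rintro ⟨β, γ⟩ _
    obtain ⟨b₀, rfl⟩ := QuotientAddGroup.mk_surjective β
    obtain ⟨c₀, rfl⟩ := QuotientAddGroup.mk_surjective γ
    obtain ⟨ε, hε, h⟩ := coset_dist hΛ (b₀ - c₀)
    have h2 : ∀ᶠ t in 𝓝[>] (0 : ℝ), t < ε / 8 := nhdsWithin_le_nhds (gt_mem_nhds (by positivity))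
    filter_upwards [h2] with t ht b b' hb hb' hne
    have h3 : b - b₀ ∈ Λ := sub_mem_iff.2 hb
    have h4 : b' - c₀ ∈ Λ := sub_mem_iff.2 hb'
    have h5 : (b₀ - c₀) + ((b - b₀) - (b' - c₀)) = b - b' := by ring
    have h6 := h _ (Λ.sub_mem h3 h4) (by rw [h5]; exact sub_ne_zero.2 hne)
    rw [h5] at h6
    linarith
  obtain ⟨δ, hδ1, hδ⟩ := (h1.and self_mem_nhdsWithin).exists
  refine ⟨δ, hδ, fun b hb l hl => ?_, fun b hb b' hb' hne => hδ1 (_, _) ⟨hb, hb'⟩ b b' rfl rfl hne⟩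
  have h2 : ((b + l : ℂ) : ℂ ⧸ Λ) = (b : ℂ ⧸ Λ) := by
    rw [← sub_mem_iff, add_sub_cancel_left]
    exact hl
  show ((b + l : ℂ) : ℂ ⧸ Λ) ∈ B
  rw [h2]
  exact hb

/-- the forms as functions on the Euclidean space -/
def formE (H : Fin 2 → MvPolynomial (Fin (N + 1)) ℂ) (i : Fin 2) (y : EN N) : ℂ := eval ((Pool.Agent.H17EF.LE N).symm y) (H i)

theorem formE_dif (H : Fin 2 → MvPolynomial (Fin (N + 1)) ℂ) (i : Fin 2) : Differentiable ℂ (formE H i) := by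
  intro y
  have h1 := Pool.Agent.H36.BPL.analyticAt_form (H i) ((Pool.Agent.H17EF.LE N).symm y)
  exact (AnalyticAt.comp (g := fun x : Fin (N + 1) → ℂ => eval x (H i)) (f := fun y : EN N => (Pool.Agent.H17EF.LE N).symm y) h1
    (((Pool.Agent.H17EF.LE N).symm : EN N →L[ℂ] (Fin (N + 1) → ℂ)).analyticAt y)).differentiableAt

theorem formE_hom {H : Fin 2 → MvPolynomial (Fin (N + 1)) ℂ} {d : Fin 2 → ℕ} (hH : ∀ i, (H i).IsHomogeneous (d i)) (i : Fin 2) (c : ℂ)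
    (y : EN N) : formE H i (c • y) = c ^ d i * formE H i y := by
  unfold formE
  rw [map_smul, eval_smul_form (hH i)]

theorem vanishesAt_mk {n : ℕ} {Q : MvPolynomial (Fin (N + 1)) ℂ} (hQ : Q.IsHomogeneous n) {x : Fin (N + 1) → ℂ} (hx : x ≠ 0) :
    VanishesAt Q (Projectivization.mk ℂ x hx) ↔ eval x Q = 0 := by
  obtain ⟨a, ha, hrep⟩ := Pool.Agent.H36.BP.rep_mk hx
  unfold VanishesAt
  rw [hrep, eval_smul_form hQ]
  constructor
  · exact fun h => (mul_eq_zero.1 h).resolve_left (pow_ne_zero _ ha)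
  · intro h
    rw [h, mul_zero]

/-- The entire curves which are contained in a fibre of `u`, and in the complement `U` of the hypersurfaces `H 0 = 0`, `H 1 = 0` or in the
hypersurface `H 1 = 0`, lie over `B`, and those in `U` lie in `Z`. -/
structure FibCond (X : Set (PN N)) (Λ : AddSubgroup ℂ) (u : PN N → ℂ ⧸ Λ) (H : Fin 2 → MvPolynomial (Fin (N + 1)) ℂ) (B : Set (ℂ ⧸ Λ))
    (Z : Set (PN N)) : Prop where
  inU : ∀ f : ℂ → PN N, HolomorphicInto f Set.univ → (∀ z, f z ∈ X) → (∀ i z, ¬ VanishesAt (H i) (f z)) → (∀ z w, u (f z) = u (f w)) →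
    (∃ z w, f z ≠ f w) → u (f 0) ∈ B ∧ ∀ z, f z ∈ Z
  inD : ∀ f : ℂ → PN N, HolomorphicInto f Set.univ → (∀ z, f z ∈ X) → (∀ z, VanishesAt (H 1) (f z)) → (∀ z w, u (f z) = u (f w)) →
    (∃ z w, f z ≠ f w) → u (f 0) ∈ B

variable {P : Ideal (MvPolynomial (Fin (N + 1)) ℂ)} [P.IsPrime]

/-- **There are no sections in the complement of the two hypersurfaces.** -/
theorem no_section (hP : Homog P) (hS : Surface (cone P)) {Λ : AddSubgroup ℂ} (hΛ : Lat Λ) {u : PN N → ℂ ⧸ Λ}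
    (hu : IsHolomorphicMap (projVar P) Λ u) {H : Fin 2 → MvPolynomial (Fin (N + 1)) ℂ} {d : Fin 2 → ℕ}
    (hH : ∀ i, (H i).IsHomogeneous (d i)) (hd : 0 < d 0)
    (hD : ∀ f : ℂ → PN N, HolomorphicInto f Set.univ → (∀ z, f z ∈ projVar P) → (∀ z, VanishesAt (H 0) (f z)) → ∀ z w, f z = f w)
    {B : Set (ℂ ⧸ Λ)} (hB : B.Finite) {Z : Set (PN N)} (hfib : FibCond (projVar P) Λ u H B Z) {f : ℂ → PN N}
    (hf : f ∈ sections (projVar P) Λ u) : ¬ ∀ i z, ¬ VanishesAt (H i) (f z) := by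
  intro hfU
  obtain ⟨δ, hbad⟩ := badSet_of_finite hΛ hB
  -- lifts and maps
  have hmk : ∀ (F : ℂ → EN N), Differentiable ℂ F → (∀ z, F z ∈ coneE P) → ∃ g : ℂ → PN N, HolomorphicInto g Set.univ ∧
      ∀ z, ∃ h : (Pool.Agent.H17EF.LE N).symm (F z) ≠ 0, g z = Projectivization.mk ℂ ((Pool.Agent.H17EF.LE N).symm (F z)) h := by
    intro F hF hFX
    have h0 : ∀ z, (Pool.Agent.H17EF.LE N).symm (F z) ≠ 0 := fun z => ((mem_coneE hP).1 (hFX z)).1
    exact ⟨_, holomorphicInto_of_lift hF h0, fun z => ⟨h0 z, rfl⟩⟩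
  have hprop : ∀ {x y : EN N} (hx : (Pool.Agent.H17EF.LE N).symm x ≠ 0) (hy : (Pool.Agent.H17EF.LE N).symm y ≠ 0),
      Projectivization.mk ℂ ((Pool.Agent.H17EF.LE N).symm x) hx = Projectivization.mk ℂ ((Pool.Agent.H17EF.LE N).symm y) hy ↔
        ∃ c : ℂ, x = c • y := by
    intro x y hx hy
    rw [Projectivization.mk_eq_mk_iff']
    constructor
    · rintro ⟨c, hc⟩
      rw [← map_smul] at hc
      exact ⟨c, ((Pool.Agent.H17EF.LE N).symm.injective hc).symm⟩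
    · rintro ⟨c, hc⟩
      exact ⟨c, by rw [hc, map_smul]⟩
  have hDE : ∀ F : ℂ → EN N, Differentiable ℂ F → (∀ z, F z ∈ coneE P) → (∀ z, formE H 0 (F z) = 0) → ∀ z w, ∃ c : ℂ, F z = c • F w := by
    intro F hF hFX hF0 z w
    obtain ⟨g, hg, hgF⟩ := hmk F hF hFX
    have h1 := hD g hg (fun z => by
      obtain ⟨h, h'⟩ := hgF z
      rw [h']
      exact (mk_mem_projVar hP h).2 (hFX z)) (fun z => by
      obtain ⟨h, h'⟩ := hgF z
      rw [h', vanishesAt_mk (hH 0)]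
      exact hF0 z) z w
    obtain ⟨h2, h2'⟩ := hgF z
    obtain ⟨h3, h3'⟩ := hgF w
    rw [h2', h3'] at h1
    exact (hprop h2 h3).1 h1
  have E : LData (coneE P) Λ (uE Λ u) {b : ℂ | (b : ℂ ⧸ Λ) ∈ B} δ (formE H) d := by
    refine ⟨isCone_transport (Pool.Agent.H17EF.LE N) hS, torusMap hP hu, hΛ, hbad, formE_dif H, formE_hom hH, hd, ?_, hDE⟩
    intro F hF hFX hdi hver hnc
    obtain ⟨g, hg, hgF⟩ := hmk F hF hFX
    have hgX : ∀ z, g z ∈ projVar P := by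
      intro z
      obtain ⟨h, h'⟩ := hgF z
      rw [h']
      exact (mk_mem_projVar hP h).2 (hFX z)
    have hval : ∀ z, ((uE Λ u (F z) : ℂ) : ℂ ⧸ Λ) = u (g z) := by
      intro z
      obtain ⟨h, h'⟩ := hgF z
      rw [uE_eq Λ u h, ← h']
    have hgu : ∀ z w, u (g z) = u (g w) := by
      intro z w
      rw [← hval, ← hval, ← sub_mem_iff]
      exact hver z w
    have hgn : ∃ z w, g z ≠ g w := by
      obtain ⟨z, w, hzw⟩ := hnc
      refine ⟨z, w, fun h => ?_⟩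
      obtain ⟨h2, h2'⟩ := hgF z
      obtain ⟨h3, h3'⟩ := hgF w
      rw [h2', h3', hprop h2 h3] at h
      obtain ⟨c, hc⟩ := h
      exact hzw c hc
    have hgv : ∀ i z, VanishesAt (H i) (g z) ↔ formE H i (F z) = 0 := by
      intro i z
      obtain ⟨h, h'⟩ := hgF z
      rw [h', vanishesAt_mk (hH i)]
      rfl
    have hmem : u (g 0) ∈ B := by
      rcases hdi 0 with h0 | h0
      swap
      · obtain ⟨z, w, hzw⟩ := hnc
        obtain ⟨c, hc⟩ := hDE F hF hFX h0 z w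
        exact absurd hc (hzw c)
      rcases hdi 1 with h1 | h1
      · refine (hfib.inU g hg hgX (fun i z => ?_) hgu hgn).1
        rw [hgv]
        fin_cases i
        · exact h0 z
        · exact h1 z
      · refine hfib.inD g hg hgX (fun z => ?_) hgu hgn
        rw [hgv]
        exact h1 z
    rw [← hval] at hmem
    exact ⟨uE Λ u (F 0), hmem, by rw [sub_self]; exact Λ.zero_mem⟩
  obtain ⟨F, hF, hFf⟩ := exists_sec hP hf
  have hFS : F ∈ SG (coneE P) Λ (uE Λ u) (formE H) := by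
    refine ⟨hF, fun i z h0 => ?_⟩
    obtain ⟨h, h'⟩ := hFf z
    apply hfU i z
    rw [h', vanishesAt_mk (hH i)]
    exact h0
  rw [sg_empty E] at hFS
  exact hFS

end Pool.Agent.H86.LE
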