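import Pool.Agent.H62.EL.Zl

/-!
# LE Defs: the complement of two curves in a surface over an elliptic curve

`X` is the cone (without `0`) over a projective variety, `u` a holomorphic map to `ℂ / Λ`, `G 0`, `G 1` are forms with the zero sets `D₁`, `D₂`.
There are no entire curves in `D₁`, and the entire curves in the fibres of `u`, in the complement of `D₁ ∪ D₂` or in `D₂`, lie over the bad set `B`.
-/

set_option autoImplicit false

open Topology Filter Metric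

namespace Pool.Agent.H86.LE

open Pool.Agent.H36.BP (EN fs)
open Pool.Agent.H14.PP (IsCone)
open Pool.Agent.H62.EF (Lat TorusMap Sec)
open Pool.Agent.H62.EL (BadSet Gd)

variable {N : ℕ}

/-- the geometric data -/
structure LData (X : Set (EN N)) (Λ : AddSubgroup ℂ) (u : EN N → ℂ) (B : Set ℂ) (δ : ℝ) (G : Fin 2 → EN N → ℂ) (m : Fin 2 → ℕ) : Prop where
  cone : IsCone X
  tor : TorusMap X Λ u
  lat : Lat Λ
  bad : BadSet B Λ δ
  dif : ∀ i, Differentiable ℂ (G i)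
  hom : ∀ i (c : ℂ) (x : EN N), G i (c • x) = c ^ m i * G i x
  pos : 0 < m 0
  fib : ∀ F : ℂ → EN N, Differentiable ℂ F → (∀ z, F z ∈ X) → (∀ i, (∀ z, G i (F z) ≠ 0) ∨ ∀ z, G i (F z) = 0) →
    (∀ z w, u (F z) - u (F w) ∈ Λ) → (∃ z w, ∀ c : ℂ, F z ≠ c • F w) → ∃ b ∈ B, u (F 0) - b ∈ Λ
  noD : ∀ F : ℂ → EN N, Differentiable ℂ F → (∀ z, F z ∈ X) → (∀ z, G 0 (F z) = 0) → ∀ z w, ∃ c : ℂ, F z = c • F w

/-- the sections which avoid `D₁` and `D₂` -/
def SG (X : Set (EN N)) (Λ : AddSubgroup ℂ) (u : EN N → ℂ) (G : Fin 2 → EN N → ℂ) : Set (ℂ → EN N) :=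
  {F | F ∈ Sec X Λ u ∧ ∀ i z, G i (F z) ≠ 0}

theorem sg_trans {X : Set (EN N)} {Λ : AddSubgroup ℂ} {u : EN N → ℂ} {G : Fin 2 → EN N → ℂ} {F : ℂ → EN N} (hF : F ∈ SG X Λ u G) {l : ℂ}
    (hl : l ∈ Λ) : (fun z => F (z + l)) ∈ SG X Λ u G :=
  ⟨Pool.Agent.H62.EF.sec_trans hF.1 hl, fun i z => hF.2 i (z + l)⟩

end Pool.Agent.H86.LE
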