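import Pool.Agent.H86.LE.Zl
import Pool.Agent.H62.EL.SbB

/-!
# LE Lim: limits of the sections which avoid the curves
-/

set_option autoImplicit false

open Topology Filter Metric

namespace Pool.Agent.H86.LE

open Pool.Agent.H36.BP (EN fs wd)
open Pool.Agent.H14.PP (IsCone)
open Pool.Agent.H62.EF (Lat MN pr TorusMap Sec pr_lipschitz norm_inner_sq continuousAt_pr pr_smul pr_eq_iff)
open Pool.Agent.H62.EL (BadSet Gd isClosed_gd gd_notMem gd_mono)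

variable {N : ℕ} {X : Set (EN N)} {Λ : AddSubgroup ℂ} {u : EN N → ℂ} {B : Set ℂ} {δ : ℝ} {G : Fin 2 → EN N → ℂ} {m : Fin 2 → ℕ}

theorem ne_zero_of_mem (hX : IsCone X) {x : EN N} (hx : x ∈ X) : x ≠ 0 := by
  rintro rfl
  exact hX.zero_notMem hx

theorem lim_local (hX : IsCone X) {L : ℝ} (hL : 0 < L) (𝒰 : Ultrafilter ℕ) (F : ℕ → ℂ → EN N) {z₀ : ℂ} {r₀ : ℝ}
    (hr₀ : 0 < r₀) (hF : ∀ᶠ n in (𝒰 : Filter ℕ), DifferentiableOn ℂ (F n) (ball z₀ r₀) ∧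
      ∀ z ∈ ball z₀ r₀, F n z ∈ X ∧ fs (F n z) (deriv (F n) z) ≤ L) :
    ∃ (r : ℝ) (φ : ℕ → ℂ → EN N) (ψ : ℂ → EN N), 0 < r ∧ r ≤ r₀ ∧
        (∀ᶠ n in (𝒰 : Filter ℕ), DifferentiableOn ℂ (φ n) (ball z₀ r) ∧ ∀ z ∈ ball z₀ r, F n z ∈ X ∧ ∃ c : ℂ, c ≠ 0 ∧ φ n z = c • F n z) ∧
        DifferentiableOn ℂ ψ (ball z₀ r) ∧ (∀ z ∈ ball z₀ r, ψ z ∈ X) ∧
        TendstoLocallyUniformlyOn φ ψ 𝒰 (ball z₀ r) := by
  set r : ℝ := min r₀ (1 / (8 * L)) with hr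
  have hr0 : 0 < r := lt_min hr₀ (by positivity)
  have hrr : r ≤ r₀ := min_le_left _ _
  have hrL : r ≤ 1 / (8 * L) := min_le_right _ _
  have hz₀ : z₀ ∈ ball z₀ r := mem_ball_self hr0
  have hev : ∀ᶠ n in (𝒰 : Filter ℕ), DifferentiableOn ℂ (F n) (ball z₀ r) ∧
      ∀ z ∈ ball z₀ r, F n z ∈ X ∧ ‖F n z₀‖ * ‖F n z‖ ≤ 2 * ‖inner ℂ (F n z₀) (F n z)‖ := by
    filter_upwards [hF] with n h1
    obtain ⟨h1, h3⟩ := h1
    have hsub : ball z₀ r ⊆ ball z₀ r₀ := ball_subset_ball hrr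
    refine ⟨h1.mono hsub, fun z hz => ⟨(h3 z (hsub hz)).1, ?_⟩⟩
    have hx0 : F n z₀ ≠ 0 := ne_zero_of_mem hX (h3 z₀ (hsub hz₀)).1
    have hy0 : F n z ≠ 0 := ne_zero_of_mem hX (h3 z (hsub hz)).1
    have hlip := pr_lipschitz isOpen_ball (convex_ball z₀ r) (h1.mono hsub)
      (fun w hw => ne_zero_of_mem hX (h3 w (hsub hw)).1) (fun w hw => (h3 w (hsub hw)).2) z₀ hz₀ z hz
    have h4 : ‖z₀ - z‖ ≤ r := by
      rw [← dist_eq_norm, dist_comm]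
      exact (mem_ball.mp hz).le
    have h5 : dist (pr (F n z₀)) (pr (F n z)) ≤ 1 / 4 := by
      calc dist (pr (F n z₀)) (pr (F n z)) ≤ 2 * L * ‖z₀ - z‖ := hlip
        _ ≤ 2 * L * (1 / (8 * L)) := by gcongr; exact h4.trans hrL
        _ = 1 / 4 := by field_simp; norm_num
    have h6 := norm_inner_sq hx0 hy0
    have h7 : dist (pr (F n z₀)) (pr (F n z)) ^ 2 ≤ 1 := by
      have := dist_nonneg (x := pr (F n z₀)) (y := pr (F n z))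
      nlinarith
    have h8 : (‖F n z₀‖ * ‖F n z‖) ^ 2 ≤ (2 * ‖inner ℂ (F n z₀) (F n z)‖) ^ 2 := by
      rw [mul_pow, mul_pow, h6]
      have h9 : 0 ≤ ‖F n z₀‖ ^ 2 * ‖F n z‖ ^ 2 := by positivity
      nlinarith
    exact abs_le_of_sq_le_sq' h8 (by positivity) |>.2
  set φ : ℕ → ℂ → EN N := fun n z => (((‖F n z₀‖ : ℝ) : ℂ) / inner ℂ (F n z₀) (F n z)) • F n z with hφ
  have hev2 : ∀ᶠ n in (𝒰 : Filter ℕ), DifferentiableOn ℂ (F n) (ball z₀ r) ∧ DifferentiableOn ℂ (φ n) (ball z₀ r) ∧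
      ∀ z ∈ ball z₀ r, F n z ∈ X ∧ (∃ c : ℂ, c ≠ 0 ∧ φ n z = c • F n z) ∧ ‖φ n z‖ ≤ 2 ∧ 1 ≤ ‖φ n z‖ := by
    filter_upwards [hev] with n h1
    obtain ⟨h1, h2⟩ := h1
    have hx0 : F n z₀ ≠ 0 := ne_zero_of_mem hX (h2 z₀ hz₀).1
    have hxn : 0 < ‖F n z₀‖ := norm_pos_iff.mpr hx0
    have hin : ∀ z ∈ ball z₀ r, (inner ℂ (F n z₀) (F n z) : ℂ) ≠ 0 := by
      intro z hz h
      have h3 := (h2 z hz).2
      have hyn : 0 < ‖F n z‖ := norm_pos_iff.mpr (ne_zero_of_mem hX (h2 z hz).1)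
      rw [h, norm_zero, mul_zero] at h3
      have : 0 < ‖F n z₀‖ * ‖F n z‖ := mul_pos hxn hyn
      linarith
    refine ⟨h1, ?_, fun z hz => ⟨(h2 z hz).1, ⟨_, ?_, rfl⟩, ?_, ?_⟩⟩
    · have h3 : DifferentiableOn ℂ (fun z => (inner ℂ (F n z₀) (F n z) : ℂ)) (ball z₀ r) :=
        (innerSL ℂ (F n z₀)).differentiable.comp_differentiableOn h1
      have h4 : DifferentiableOn ℂ (fun z => ((‖F n z₀‖ : ℝ) : ℂ) / (inner ℂ (F n z₀) (F n z) : ℂ)) (ball z₀ r) :=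
        (differentiableOn_const _).div h3 hin
      exact h4.smul h1
    · exact div_ne_zero (Complex.ofReal_ne_zero.mpr hxn.ne') (hin z hz)
    · have h3 := (h2 z hz).2
      have h4 : 0 < ‖(inner ℂ (F n z₀) (F n z) : ℂ)‖ := norm_pos_iff.mpr (hin z hz)
      simp only [hφ]
      rw [norm_smul, norm_div, Complex.norm_real, norm_norm, div_mul_eq_mul_div, div_le_iff₀ h4]
      exact h3
    · have h4 : 0 < ‖(inner ℂ (F n z₀) (F n z) : ℂ)‖ := norm_pos_iff.mpr (hin z hz)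
      simp only [hφ]
      rw [norm_smul, norm_div, Complex.norm_real, norm_norm, div_mul_eq_mul_div, le_div_iff₀ h4, one_mul]
      exact norm_inner_le_norm _ _
  obtain ⟨ψ, hψ, hconv⟩ := Pool.Agent.H17.montel_ultrafilter 𝒰 (F := φ) (a := z₀) (r := r) (B := 2)
    (hev2.mono fun n h => h.2.1) (hev2.mono fun n h z hz => ((h.2.2 z hz).2.2.1))
  refine ⟨r, φ, ψ, hr0, hrr, hev2.mono fun n h => ⟨h.2.1, fun z hz => ⟨(h.2.2 z hz).1, (h.2.2 z hz).2.1⟩⟩, hψ, ?_, hconv⟩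
  intro z hz
  have h1 : Tendsto (fun n => φ n z) 𝒰 (𝓝 (ψ z)) := hconv.tendsto_at hz
  have h2 : ψ z ∈ insert 0 X := by
    refine hX.closed.mem_of_tendsto h1 ?_
    filter_upwards [hev2] with n h
    obtain ⟨h3, ⟨c, hc, h4⟩, -⟩ := h.2.2 z hz
    rw [h4]
    exact Or.inr (hX.smul_mem _ h3 c hc)
  have h3 : 1 ≤ ‖ψ z‖ := by
    refine ge_of_tendsto h1.norm ?_
    filter_upwards [hev2] with n h
    exact (h.2.2 z hz).2.2.2
  rcases h2 with h2 | h2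
  · rw [h2, norm_zero] at h3
    linarith
  · exact h2


theorem countable_bad (h : BadSet B Λ δ) : B.Countable := by
  have hd : B.PairwiseDisjoint (fun b => ball b (4 * δ)) := by
    intro b hb b' hb' hne
    refine ball_disjoint_ball ?_
    rw [dist_eq_norm]
    have := h.sep b hb b' hb' hne
    linarith
  exact hd.countable_of_isOpen (fun _ _ => isOpen_ball) fun b _ => ⟨b, mem_ball_self (by linarith [h.pos])⟩

theorem connected_compl (h : BadSet B Λ δ) : IsPreconnected (Bᶜ : Set ℂ) := by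
  have h1 : 1 < Module.rank ℝ ℂ := by
    rw [Complex.rank_real_complex]
    exact Cardinal.one_lt_two
  exact ((countable_bad h).isPathConnected_compl_of_one_lt_rank h1).isConnected.isPreconnected

/-- `Ψ` is a local limit of the curves `F n` at `z₀` -/
structure LocLim (X : Set (EN N)) (Λ : AddSubgroup ℂ) (u : EN N → ℂ) (𝒰 : Ultrafilter ℕ) (F : ℕ → ℂ → EN N) (x : ℂ → EN N) (z₀ : ℂ) (r : ℝ)
    (φ : ℕ → ℂ → EN N) (Ψ : ℂ → EN N) : Prop where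
  pos : 0 < r
  app : ∀ᶠ n in (𝒰 : Filter ℕ), DifferentiableOn ℂ (φ n) (ball z₀ r) ∧ ∀ z ∈ ball z₀ r, ∃ c : ℂ, c ≠ 0 ∧ φ n z = c • F n z
  dif : DifferentiableOn ℂ Ψ (ball z₀ r)
  mem : ∀ z ∈ ball z₀ r, Ψ z ∈ X ∧ u (Ψ z) - z ∈ Λ ∧ ∃ c : ℂ, c ≠ 0 ∧ Ψ z = c • x z
  conv : TendstoLocallyUniformlyOn φ Ψ 𝒰 (ball z₀ r)

theorem exists_limit (E : LData X Λ u B δ G m) (𝒰 : Ultrafilter ℕ) {F : ℕ → ℂ → EN N} (hF : ∀ n, F n ∈ SG X Λ u G) :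
    ∃ x : ℂ → EN N, (∀ z, z ∉ B → x z ∈ X) ∧
      ∀ z₀, z₀ ∉ B → ∃ (r : ℝ) (φ : ℕ → ℂ → EN N) (Ψ : ℂ → EN N), LocLim X Λ u 𝒰 F x z₀ r φ Ψ := by
  classical
  have hcp := Pool.Agent.H62.EF.isCompact_pr E.cone
  -- the limits
  have h1 : ∀ z : ℂ, ∃ y ∈ X, Tendsto (fun n => pr (F n z)) 𝒰 (𝓝 (pr y)) := by
    intro z
    have h2 : pr '' X ∈ (𝒰.map fun n => pr (F n z)) := by
      rw [Ultrafilter.mem_map]
      exact Filter.univ_mem' fun n => ⟨F n z, (hF n).1.2.1 z, rfl⟩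
    obtain ⟨_, ⟨y, hy, rfl⟩, hy2⟩ := hcp.ultrafilter_le_nhds' _ h2
    exact ⟨y, hy, hy2⟩
  choose x hxX hx using h1
  refine ⟨x, fun z _ => hxX z, fun z₀ hz₀ => ?_⟩
  obtain ⟨δ₂, hδ₂, hzg⟩ := E.bad.exists_gd hz₀
  set δ' : ℝ := δ₂ / 2 with hδ'
  have hδ'0 : 0 < δ' := half_pos hδ₂
  have hsub : ∀ z ∈ ball z₀ δ', z ∈ Gd B δ' := by
    intro z hz b hb
    have h1 := hzg b hb
    have h2 : ‖z - z₀‖ < δ' := by
      rw [← dist_eq_norm]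
      exact mem_ball.1 hz
    have h3 : ‖z₀ - b‖ ≤ ‖z - z₀‖ + ‖z - b‖ := by
      have h4 : z₀ - b = -(z - z₀) + (z - b) := by ring
      rw [h4]
      refine (norm_add_le _ _).trans ?_
      rw [norm_neg]
    linarith
  obtain ⟨L, hL0, hL⟩ := sg_bound E hδ'0
  obtain ⟨r, φ, ψ, hr, hrr, hev, hψd, hψX, hconv⟩ := lim_local E.cone hL0 𝒰 F (z₀ := z₀) hδ'0
    (Filter.Eventually.of_forall fun n => ⟨(hF n).1.1.differentiableOn, fun z hz => ⟨(hF n).1.2.1 z, hL _ (hF n) z (hsub z hz)⟩⟩)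
  have hlimψ : ∀ z ∈ ball z₀ r, Tendsto (fun n => pr (F n z)) 𝒰 (𝓝 (pr (ψ z))) := by
    intro z hz
    have h1 : Tendsto (fun n => φ n z) 𝒰 (𝓝 (ψ z)) := hconv.tendsto_at hz
    have h2 : Tendsto (fun n => pr (φ n z)) 𝒰 (𝓝 (pr (ψ z))) :=
      (continuousAt_pr (ne_zero_of_mem E.cone (hψX z hz))).tendsto.comp h1
    refine h2.congr' ?_
    filter_upwards [hev] with n h
    obtain ⟨-, c, hc, h4⟩ := h.2 z hz
    rw [h4, pr_smul _ hc]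
  refine ⟨r, φ, ψ, ⟨hr, hev.mono fun n hn => ⟨hn.1, fun z hz => (hn.2 z hz).2⟩, hψd, fun z hz => ⟨hψX z hz, ?_, ?_⟩, hconv⟩⟩
  · apply Pool.Agent.H62.EF.Lat.mem_of_close E.lat
    intro ε hε
    obtain ⟨δ₁, hδ₁, hδ2⟩ := Pool.Agent.H62.EF.TorusMap.unif E.cone E.tor hε
    have h1 : ∀ᶠ n in (𝒰 : Filter ℕ), dist (pr (F n z)) (pr (ψ z)) < δ₁ := Metric.tendsto_nhds.1 (hlimψ z hz) δ₁ hδ₁
    obtain ⟨n, hn1⟩ := h1.exists
    obtain ⟨l, hl, hl2⟩ := hδ2 (F n z) ((hF n).1.2.1 z) (ψ z) (hψX z hz) hn1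
    refine ⟨(u (F n z) - z) - l, Λ.sub_mem ((hF n).1.2.2 z) hl, ?_⟩
    have h2 : u (ψ z) - z - ((u (F n z) - z) - l) = -(u (F n z) - u (ψ z) - l) := by ring
    rw [h2, norm_neg]
    exact hl2
  · exact (pr_eq_iff (ne_zero_of_mem E.cone (hψX z hz)) (ne_zero_of_mem E.cone (hxX z))).1
      (tendsto_nhds_unique (hlimψ z hz) (hx z))

/-- a limit of sections which avoid `D₁` avoids `D₁` or lies in it -/
theorem limit_dichotomy (E : LData X Λ u B δ G m) (𝒰 : Ultrafilter ℕ) {F : ℕ → ℂ → EN N} (hF : ∀ n, F n ∈ SG X Λ u G) {x : ℂ → EN N}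
    (hx : ∀ z₀, z₀ ∉ B → ∃ (r : ℝ) (φ : ℕ → ℂ → EN N) (Ψ : ℂ → EN N), LocLim X Λ u 𝒰 F x z₀ r φ Ψ) :
    (∀ z, z ∉ B → G 0 (x z) = 0) ∨ ∀ z, z ∉ B → G 0 (x z) ≠ 0 := by
  refine dichotomy (connected_compl E.bad) (p := fun z => G 0 (x z) = 0) fun z₀ hz₀ => ?_
  obtain ⟨r, φ, Ψ, h⟩ := hx z₀ hz₀
  refine ⟨r, h.pos, ?_⟩
  have h4 : ∀ᶠ n in (𝒰 : Filter ℕ), ∀ z ∈ ball z₀ r, G 0 (φ n z) ≠ 0 := by
    filter_upwards [h.app] with n hn z hz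
    obtain ⟨c, hc0, hc1⟩ := hn.2 z hz
    rw [hc1, E.hom]
    exact mul_ne_zero (pow_ne_zero _ hc0) ((hF n).2 0 _)
  rcases hurwitz_local (E.dif 0) 𝒰 (h.app.mono fun n hn => hn.1) h4 h.dif h.conv with h5 | h5
  · left
    intro z hz
    obtain ⟨-, -, c, hc0, hc1⟩ := h.mem z hz
    have h6 := h5 z hz
    rw [hc1, E.hom] at h6
    exact (mul_eq_zero.1 h6).resolve_left (pow_ne_zero _ hc0)
  · right
    intro z hz h6
    obtain ⟨-, -, c, hc0, hc1⟩ := h.mem z hz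
    apply h5 z hz
    rw [hc1, E.hom, h6, mul_zero]

end Pool.Agent.H86.LE
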