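import Pool.Agent.H86.LE.Bridge

/-!
# LE Main: the four properties of the Green–Griffiths–Lang conjecture for complements of curves in surfaces over an elliptic curve
-/

set_option autoImplicit false

open MvPolynomial

noncomputable section

namespace Pool.Agent.H86.LE

open Pool.Agent.H17 (PN VanishesAt ZariskiClosedIn HolomorphicInto puncturedDisc)
open Pool.Agent.H62.FC (Homog)
open Pool.Agent.H62.SA (locVar OnBd IsProperMap proper_main)
open Pool.Agent.H17LG.Variety (FunField IsLogGeneralType)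
open Pool.Agent.H13.SM (conTan cone)
open Pool.Agent.H14.KB (KobayashiHyperbolicModulo)
open Pool.Agent.H13.OT (OrderTwo)
open Pool.Agent.H17BP (Surface)
open Pool.Agent.H17EF (projVar IsHolomorphicMap sections exists_affine exists_form_of_ne exists_point exists_coord lat_of_basis)

variable {N : ℕ} {P : Ideal (MvPolynomial (Fin (N + 1)) ℂ)}

/-- the complement of a hypersurface section is affine -/
theorem properMap_hyp (P : Ideal (MvPolynomial (Fin (N + 1)) ℂ)) {Q : MvPolynomial (Fin (N + 1)) ℂ} {e : ℕ} (hQ : Q.IsHomogeneous e) :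
    IsProperMap P (fun _ : Fin 1 => Q) (fun _ => (Fin.cons Q fun i : Fin (N + 1) => X i ^ e : Fin (N + 1 + 1) → _)) (fun _ => e) := by
  refine ⟨fun m j => ?_, fun m => rfl, fun m n j => ?_, fun x hx => ?_⟩
  · refine Fin.cases ?_ (fun i => ?_) j
    · exact hQ
    · show (X i ^ e : MvPolynomial (Fin (N + 1)) ℂ).IsHomogeneous e
      exact isHomogeneous_X_pow i e
  · rw [sub_self]
    exact P.zero_mem
  · obtain ⟨i, hi⟩ : ∃ i, x.rep i ≠ 0 := by
      by_contra hcon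
      push Not at hcon
      exact x.rep_nonzero (funext hcon)
    refine ⟨0, i.succ, ?_⟩
    show ¬ VanishesAt (X i ^ e : MvPolynomial (Fin (N + 1)) ℂ) x
    unfold VanishesAt
    rw [map_pow, eval_X]
    exact pow_ne_zero e hi

theorem vanishesAt_mul {Q R : MvPolynomial (Fin (N + 1)) ℂ} {x : PN N} : VanishesAt (Q * R) x ↔ VanishesAt Q x ∨ VanishesAt R x := by
  unfold VanishesAt
  rw [map_mul, mul_eq_zero]

section

variable [P.IsPrime] {z : Fin 2 → FunField P} {Λ : AddSubgroup ℂ} {u : PN N → ℂ ⧸ Λ} {H : Fin 2 → MvPolynomial (Fin (N + 1)) ℂ} {d : Fin 2 → ℕ}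
  {B : Set (ℂ ⧸ Λ)} {Z : Set (PN N)}

/-- the entire curves of order two are vertical -/
theorem vertical (hP : Homog P) (hz : IsTranscendenceBasis ℂ z)
    (hsm : ∀ y : Fin (N + 1) → ℂ, y ≠ 0 → (∀ Q ∈ P, eval y Q = 0) → Module.finrank ℂ (conTan P y) ≤ 3)
    (hΛ : Pool.Agent.H62.EF.Lat Λ) (hu : IsHolomorphicMap (projVar P) Λ u) (hH : ∀ i, (H i).IsHomogeneous (d i)) (hd : 0 < d 0)
    (hD : ∀ f : ℂ → PN N, HolomorphicInto f Set.univ → (∀ z, f z ∈ projVar P) → (∀ z, VanishesAt (H 0) (f z)) → ∀ z w, f z = f w)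
    (hB : B.Finite) (hfib : FibCond (projVar P) Λ u H B Z) {g : ℂ → PN N} (hg : HolomorphicInto g Set.univ) (hgo : OrderTwo g)
    (hgX : ∀ z, g z ∈ projVar P) (hgH : ∀ i z, ¬ VanishesAt (H i) (g z)) (z w : ℂ) : u (g z) = u (g w) := by
  have hS : Surface (cone P) := Pool.Agent.H13.SM.surface_cone hP hz fun y hy => hsm y hy.1 hy.2
  rcases exists_affine hP hz hsm hΛ hu hg hgo hgX with h | ⟨f, hf, a, b, ha, hgf⟩
  · exact h z w
  · exfalso
    refine no_section hP hS hΛ hu hH hd hD hB hfib hf fun i ζ h => ?_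
    apply hgH i ((ζ - b) / a)
    rw [hgf]
    have h1 : a * ((ζ - b) / a) + b = ζ := by
      field_simp
      ring
    rw [h1]
    exact h

theorem main_four (hP : Homog P) (hz : IsTranscendenceBasis ℂ z)
    (hsm : ∀ y : Fin (N + 1) → ℂ, y ≠ 0 → (∀ Q ∈ P, eval y Q = 0) → Module.finrank ℂ (conTan P y) ≤ 3)
    (hΛ : Pool.Agent.H62.EF.Lat Λ) (hu : IsHolomorphicMap (projVar P) Λ u) (hH : ∀ i, (H i).IsHomogeneous (d i)) (hd : 0 < d 0)
    (hHP : ∀ i, H i ∉ P) (hgt : IsLogGeneralType (K := FunField P) (k := 2) (OnBd P (fun _ : Fin 1 => H 0 * H 1)))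
    (hD : ∀ f : ℂ → PN N, HolomorphicInto f Set.univ → (∀ z, f z ∈ projVar P) → (∀ z, VanishesAt (H 0) (f z)) → ∀ z w, f z = f w)
    (hB : B.Finite) (hZ : ZariskiClosedIn (projVar P) Z) (hZX : Z ≠ projVar P) (hfib : FibCond (projVar P) Λ u H B Z) :
    (ZariskiClosedIn (locVar P fun _ : Fin 1 => H 0 * H 1) ((locVar P fun _ : Fin 1 => H 0 * H 1) ∩ Z) ∧
      (locVar P fun _ : Fin 1 => H 0 * H 1) ∩ Z ≠ locVar P fun _ : Fin 1 => H 0 * H 1) ∧
    (∀ f : ℂ → PN N, HolomorphicInto f Set.univ → (∀ z, f z ∈ locVar P fun _ : Fin 1 => H 0 * H 1) → (∃ z w, f z ≠ f w) →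
      ∀ z, f z ∈ (locVar P fun _ : Fin 1 => H 0 * H 1) ∩ Z) ∧
    (∀ f : ℂ → PN N, HolomorphicInto f puncturedDisc → (∀ z ∈ puncturedDisc, f z ∈ locVar P fun _ : Fin 1 => H 0 * H 1) →
      (∃ z ∈ puncturedDisc, f z ∉ (locVar P fun _ : Fin 1 => H 0 * H 1) ∩ Z) →
      ∃ g : ℂ → PN N, HolomorphicInto g (Metric.ball 0 1) ∧ ∀ z ∈ puncturedDisc, g z = f z) ∧
    (∀ (Q : Ideal (MvPolynomial (Fin (N + 1)) ℂ)) [Q.IsPrime], Homog Q → P ≤ Q →
      ¬ (locVar Q fun _ : Fin 1 => H 0 * H 1) ⊆ (locVar P fun _ : Fin 1 => H 0 * H 1) ∩ Z →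
      ∀ k, 1 ≤ k → (∃ z : Fin k → FunField Q, IsTranscendenceBasis ℂ z) →
      IsLogGeneralType (OnBd Q (fun _ : Fin 1 => H 0 * H 1) (k := k))) ∧
    ∃ (Q : MvPolynomial (Fin (N + 1)) ℂ) (D : ℕ), Q.IsHomogeneous D ∧ (∃ x ∈ (locVar P fun _ : Fin 1 => H 0 * H 1), ¬ VanishesAt Q x) ∧
      (∀ x ∈ (locVar P fun _ : Fin 1 => H 0 * H 1) ∩ Z, VanishesAt Q x) ∧
      KobayashiHyperbolicModulo (locVar P fun _ : Fin 1 => H 0 * H 1) Q D := by
  have hPp : P.IsPrime := inferInstance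
  have hHH : (H 0 * H 1).IsHomogeneous (d 0 + d 1) := (hH 0).mul (hH 1)
  have hHHP : H 0 * H 1 ∉ P := fun h => (hPp.mem_or_mem h).elim (hHP 0) (hHP 1)
  set U : Set (PN N) := locVar P fun _ : Fin 1 => H 0 * H 1 with hU
  have hmem : ∀ x, x ∈ U ↔ x ∈ projVar P ∧ ∀ i, ¬ VanishesAt (H i) x := by
    intro x
    constructor
    · rintro ⟨h1, _, h2⟩
      rw [vanishesAt_mul, not_or] at h2
      refine ⟨h1, fun i => ?_⟩
      fin_cases i
      · exact h2.1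
      · exact h2.2
    · rintro ⟨h1, h2⟩
      exact ⟨h1, 0, fun h => (vanishesAt_mul.1 h).elim (h2 0) (h2 1)⟩
  obtain ⟨R, n, hR, hRP, hRZ⟩ := exists_form_of_ne hZ hZX
  have hcl : ZariskiClosedIn U (U ∩ Z) := by
    obtain ⟨S, hS, rfl⟩ := hZ
    refine ⟨S, hS, ?_⟩
    ext x
    constructor
    · rintro ⟨h1, -, h2⟩
      exact ⟨h1, h2⟩
    · rintro ⟨h1, h2⟩
      exact ⟨h1, ((hmem x).1 h1).1, h2⟩
  have hX : ∃ i, (X i : MvPolynomial (Fin (N + 1)) ℂ) ∉ P := by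
    by_contra hcon
    push Not at hcon
    have hempty : projVar P = ∅ := by
      rw [Set.eq_empty_iff_forall_notMem]
      intro x hx
      obtain ⟨i, hi⟩ := exists_coord hx
      exact hi (hcon i)
    apply hZX
    obtain ⟨T, -, hT⟩ := hZ
    rw [hT, hempty]
    ext x
    simp
  have hne : U ∩ Z ≠ U := by
    intro heq
    obtain ⟨x, hx, hxR⟩ := exists_point hP hX (fun h : H 0 * H 1 * R ∈ P => (hPp.mem_or_mem h).elim hHHP hRP) (hHH.mul hR)
    rw [vanishesAt_mul, not_or] at hxR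
    have hxU : x ∈ U := ⟨hx, 0, hxR.1⟩
    rw [← heq] at hxU
    exact hxR.2 (hRZ x hxU.2)
  have hbr : ∀ f : ℂ → PN N, HolomorphicInto f Set.univ → OrderTwo f → (∀ z, f z ∈ U) → (∃ z w, f z ≠ f w) → ∀ z, f z ∈ U ∩ Z := by
    intro g hg hgo hgU hgn z
    have hgX : ∀ z, g z ∈ projVar P := fun z => ((hmem _).1 (hgU z)).1
    have hgH : ∀ i z, ¬ VanishesAt (H i) (g z) := fun i z => ((hmem _).1 (hgU z)).2 i
    have hver := vertical hP hz hsm hΛ hu hH hd hD hB hfib hg hgo hgX hgH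
    exact ⟨hgU z, (hfib.inU g hg hgX hgH hver hgn).2 z⟩
  obtain ⟨hbrody, hpicard, Q, D, hQ, hQx, hQΞ, hkob⟩ := proper_main hP hz hsm (properMap_hyp P hHH) hgt hcl hne hbr
  refine ⟨⟨hcl, hne⟩, hbrody, hpicard, ?_, Q, D, hQ, hQx, hQΞ, hkob⟩
  intro Q _ hQ hPQ hsub k hk hz'
  exact Pool.Agent.H13.CV.strongly_of_brodyL P hP ⟨z, hz⟩ (fun _ => ⟨_, hHH⟩) hcl hgt hbrody Q hQ hPQ hsub k hk hz'

end

end Pool.Agent.H86.LE
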